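import Pool.Agent.Helper68.C10.FinPad
import Pool.Agent.Helper68.C10.FIL1
import Pool.Agent.Helper68.C10.FIL2

/-!
# The `p`-adic closure of the rational points for more than `95.8 %` of ALL cubic twists over `ℚ(ω)`, for every prime `p`

`K = ℚ(ω)`, `E_D : y² + D y = x³`, where `D` runs through ALL cube-free elements of `𝓞 K`, ordered by the norm: these are all
the cubic twists of the Fermat curve `x³ + y³ = 1` over `K`. Let `A_D` be the restriction of scalars of `E_D` to `ℚ`, an abelian
surface with `A_D(ℚ) = E_D(K)` and `A_D(ℚ_p) = ∏_(v ∣ p) E_D(K_v)`. (It is simple unless `D` is the product of a cube and of its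
complex conjugate, up to sign; this is so for `100 %` of the `D`.)

Theorem. For more than `95.8 %` of all `D` the rank of `E_D(K)` over `ℤ` is at most two, and for EVERY prime number `p` the
points of `E_D(K)` which are independent over `ℤ` are independent over `ℤ_p` in `∏_(v ∣ p) E_D(K_v)`. So the closure in
`A_D(ℚ_p)` of every subgroup `L` of `A_D(ℚ)` has the `ℤ_p`-rank of `L`: the question has the positive answer for `A_D`, for
all primes `p` and all subgroups.

There are no hypotheses (no analytic subgroup theorem). Proof. By the exact law of the Selmer groups of the endomorphism `√-3`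
for all cube-free `D` (`ExactProportion`, MP_9ab903_nt; `C10/LR*.lean`) the rank of `E_D(K)` over `ℤ[ω]` is at most one for at
least the proportion `(3 / 2) ∏_{i ≥ 0} (1 - 3^{-(2 i + 1)}) = 0.9585...` of the `D`. Let `P` generate `E_D(K)` up to finite
index over `ℤ[ω]`, and let a nonzero element `β` of `ℤ_p[ω]` kill `P` in all `E_D(K_v)`. For one `v` the approximations of
`β` by elements `μ` of `ℤ[ω]` have bounded order at `v`; the elements of `ℤ[ω]` which are divisible by a high power of `v` map
the points of `E_D(K_v)` close to zero (filtration by the formal parameter, `C10/FIL*.lean`). So a multiple of `P`, which is a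
combination of `μ P` and of such points, is arbitrarily close to zero (`C10/PADA.lean`), and `P` is a torsion point.

In the library: `p = 3` and a share of `5 / 6` of nested families of cubic twists (`PointsOfCubicTwists`).

Joint work of helper52 (law of the Selmer groups, assembly), helper74 (`PADA`, `FIL1`) and helper55 (`FIL2`), with helper68 and
the seats named in `EveryCubicTwist` and `ExactProportion` (MP_9ab903_nt).
-/

set_option autoImplicit false

namespace Pool.Agent.Results.MP_52423f_nt.AllCubicTwists

open NumberField IsDedekindDomain WeierstrassCurve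
open Pool.Agent.TH841.SH.D (Pt act)
open scoped Classical

variable {K : Type} [Field K] [NumberField K]

/-- The curve `E_D : y² + D y = x³`. -/
def curve (D : K) : WeierstrassCurve K := ⟨0, 0, D, 0, 0⟩

/-- The rank of `E_D(K)` over `ℤ`. -/
noncomputable def rank (D : K) : ℕ := Module.finrank ℤ (curve D).toAffine.Point

/-- The group homomorphism from `E_D(K)` to `E_D(K_v)`. -/
noncomputable def toCompletion (D : K) (v : HeightOneSpectrum (𝓞 K)) :
    Pt (curve D) K →+ Pt (curve D) (v.adicCompletion K) :=
  act (curve D) (Algebra.ofId K (v.adicCompletion K))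

/-- Points `P i` of `E_D(K)` which are independent over `ℤ` (no nontrivial integral combination is a torsion point) are
independent over `ℤ_p` in the product of the `E_D(K_v)`, `v ∣ p`: if `∑ a_i P_i = 0` with `a_i ∈ ℤ_p` for all `v ∣ p`, that is,
for all `n` some combination `∑ m_i P_i` with integers `m_i ≡ a_i` modulo `p ^ n` is divisible by `p ^ n` in `E_D(K_v)`, then
`a = 0`. -/
def Independence (p : ℕ) [Fact p.Prime] (D : K) : Prop :=
  ∀ (r : ℕ) (P : Fin r → Pt (curve D) K), (∀ c : Fin r → ℤ, IsOfFinAddOrder (∑ i, c i • P i) → c = 0) →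
    ∀ a : Fin r → ℤ_[p],
      (∀ v : HeightOneSpectrum (𝓞 K), (p : 𝓞 K) ∈ v.asIdeal → ∀ n : ℕ,
        ∃ m : Fin r → ℤ, (∀ i, (p : ℤ_[p]) ^ n ∣ (m i : ℤ_[p]) - a i) ∧
        ∃ R : Pt (curve D) (v.adicCompletion K), ∑ i, m i • toCompletion D v (P i) = (p ^ n : ℕ) • R) →
      a = 0

/-- `D` is cube-free (so not zero). -/
def CubeFree (D : 𝓞 K) : Prop := ∀ x : 𝓞 K, x ^ 3 ∣ D → IsUnit x

theorem result (K : Type) [Field K] [NumberField K] [IsCyclotomicExtension {3} ℚ K] :
    ∃ X₀ : ℕ, ∀ X : ℕ, X₀ ≤ X →
      0.958 * ({D : 𝓞 K | Algebra.norm ℤ D ≤ X ∧ CubeFree D}.ncard : ℝ) ≤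
        ({D : 𝓞 K | Algebra.norm ℤ D ≤ X ∧ CubeFree D ∧ rank (D : K) ≤ 2 ∧
          ∀ (p : ℕ) [Fact p.Prime], Independence p (D : K)}.ncard : ℝ) :=
  Pool.Agent.Helper68.C10.LR.share_pad K
    (Pool.Agent.Helper68.C10.s_PADA Pool.Agent.Helper68.C10.s_FIL1 Pool.Agent.Helper68.C10.s_FIL2)

end Pool.Agent.Results.MP_52423f_nt.AllCubicTwists
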