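import Pool.Agent.Helper5.CL.AriE

/-!
# Subgroups with the smallest possible `p`-adic closure on simple abelian varieties

Let `A` be a simple abelian variety over `ℚ` of dimension `n ≥ 1` whose endomorphism algebra
`E = End(A) ⊗ ℚ` is commutative (a number field), and let `p` be a prime. Subgroups of `A(ℚ)` are
written as `ℚ`-subspaces `L` of `A(ℚ) ⊗ ℚ`; `ρ(L)` is the `ℤ_p`-rank of the closure of `L` in
`A(ℚ_p)` (the dimension of the `ℚ_p`-span of the logarithms). Q1 asks for `ρ(L) = rank L` if
`rank L ≤ n`. The library (module `N192.AV`, hand-in `SmallClosures`) has the inequality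
`rank L ≤ t ρ(L)`, if `L` is contained in an `E`-subspace `V` of dimension `t` over `E`.

Here the case of equality is determined: the structure of all `L ⊆ V` with `rank L = t ρ(L)`
(extremal subgroups), for all `t`, under the hypothesis that `A` is of `GL₂`-type (`[E : ℚ] = n`) or
that some `L ≠ 0` in `V` is extremal.

* There are a subfield `E₀` of `E` and an `E₀`-subalgebra `B` of `End_E(V) = M_t(E)`, with
  `B ⊗_{E₀} E = End_E(V)` (so `B` is a central simple algebra over `E₀` of dimension `t²`), such that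
  `L` is extremal if and only if `B L ⊆ L`. So `rank L < t ρ(L)` for all `L` which are not
  `B`-modules.
* `E₀ = E` if and only if `0` and `V` are the only extremal subgroups of `V`. If `t ≥ 2` and
  `E₀ ≠ E`, then `V` contains a counterexample to Q1.
* Let `d` be the index of `B`, i.e. `B` is a matrix algebra over a division algebra of dimension `d²`
  over `E₀`, a divisor of `t`, and `d = t` if and only if `B` is a division algebra. The numbers `ρ(L)`
  for extremal `L` are exactly the multiples of `d [E₀ : ℚ]` up to `[E : ℚ]`.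
* If `d = 1`, some extremal `L₁` has a closure of rank `[E₀ : ℚ]`, and then the extremal subgroups are
  exactly the products `F L₁`, `F` an `E₀`-subspace of `E`, and `ρ(F L₁) = dim_ℚ F`.

For example, let `[E : ℚ] = n` be a prime which does not divide `t`. Then `d = 1`, and either
`rank L < t ρ(L)` for all `L ≠ 0, V` in `V`, or there is a subgroup `L₁` of rank `t` whose closure has
rank one, and then the extremal subgroups are the products `F L₁`, `F` a `ℚ`-subspace of `E`. For real
multiplication by a real quadratic field and `t = 2` the theorem contains the theorem of the library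
that the subgroups of rank two with a closure of rank one form one orbit of `E^*`.

Proof. For every embedding `σ` of `E` into `C = ` (algebraic closure of `ℚ_p`) there is a functional
`λ_σ` on `V` with `λ_σ(e x) = σ(e) λ_σ(x)`, and the values of `λ_σ` on `E`-independent elements are
independent over the field `K` of algebraic numbers (`p`-adic analytic subgroup theorem, part of
`Props`). Let `Λ_σ : U = K^t → C` be the injective `K`-linear map induced by `λ_σ`, and let `W` be the
`K`-span of `L` in `U^X`, `X` the set of embeddings. If `dim W = t r`, where `r` is the dimension of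
the span of the functionals `w ↦ Λ_σ(w_σ)` on `W`, choose `r` embeddings which are a basis of this
span; then `W` is the graph of a linear map `U^r → U^X` all whose components `P_{σ k}` satisfy
`Λ_σ ∘ P_{σ k} = c_{σ k} Λ_{a k}`, so the nonzero components are isomorphisms, unique up to scalars
(a nonzero scalar multiple of `Λ_σ` by an element of `C` which maps `Λ_σ` into itself defines an
endomorphism of `U` with an eigenvalue in `K`, so it is in `K`). Linked embeddings (those for which
`Λ_τ ∘ P` is proportional to `Λ_σ` for some isomorphism `P`) form an equivalence relation which does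
not depend on `L`, and `W` is extremal if and only if it is stable under the algebra `M_t(K)^classes`
embedded diagonally through the isomorphisms `P`. The stabilizer in `End_E(V)` of all extremal `L` is
defined by linear equations over `ℚ`, so its `K`-span is the stabilizer in
`End_K(U)^X = K ⊗ End_E(V)` of all `K ⊗ L`; this contains `M_t(K)^classes`, and the dimension of the
span over `E` and the comparison with the scalars in it show that it is an `E₀`-form of `End_E(V)`;
the ranks follow from the theorem of Wedderburn. If `A` is of `GL₂`-type, `V` is extremal; if some `L₀ ≠ 0` is extremal, all common eigenfunctionals of `E` on `V` are proportional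
to the `λ_σ`, so that the rank `r` above is `ρ(L)` for all `L`.
-/

set_option autoImplicit false

namespace Pool.Agent.Results.MP_52423f_nt.ExtremalClosures

open Module Pool.Agent.N192.AV

variable {p : ℕ} [Fact p.Prime] {n : ℕ} {D : Setup p n} {t : ℕ}

/-- the subgroups of `V = E x_1 + ... + E x_t`, up to finite index: the `ℚ`-subspaces of `E^t` -/
abbrev Sub (D : Setup p n) (t : ℕ) : Type := Submodule ℚ (Fin t → D.E)

/-- the matrices with entries in `E`, i.e. the endomorphisms of `V` -/
abbrev Mat (D : Setup p n) (t : ℕ) : Type := Matrix (Fin t) (Fin t) D.E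

/-- the subfields of `E` -/
abbrev Fld (D : Setup p n) : Type := IntermediateField ℚ D.E

/-- the element `∑ e_i x_i` of `V` -/
noncomputable def pt (x : Fin t → D.M) : (Fin t → D.E) →ₗ[ℚ] D.M :=
  (Fintype.linearCombination D.E x).restrictScalars ℚ

/-- the rank of a subgroup -/
noncomputable def rank (L : Sub D t) : ℕ := finrank ℚ L

/-- the rank of the closure of a subgroup of `V` -/
noncomputable def ρ (x : Fin t → D.M) (L : Sub D t) : ℕ := closureRank D (L.map (pt x))

/-- the degree of a subfield of `E` -/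
noncomputable def deg (E₀ : Fld D) : ℕ := finrank ℚ E₀

/-- the subgroups of `V` with `rank L = t ρ(L)` -/
def Extremal (x : Fin t → D.M) (L : Sub D t) : Prop := rank L = t * ρ x L

/-- `e L ⊆ L` -/
def StableE (e : D.E) (L : Sub D t) : Prop := ∀ l ∈ L, e • l ∈ L

/-- `b L ⊆ L` -/
def StableM (b : Mat D t) (L : Sub D t) : Prop := ∀ l ∈ L, b.mulVec l ∈ L

/-- `E₀` is the set of the elements of `E`, `B` the set of the matrices which stabilize all extremal
subgroups -/
def IsStabilizer (x : Fin t → D.M) (E₀ : Fld D) (B : Set (Mat D t)) : Prop :=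
  (∀ e, e ∈ E₀ ↔ ∀ L, Extremal x L → StableE e L) ∧
  (∀ b, b ∈ B ↔ ∀ L, Extremal x L → StableM b L)

/-- `B = ∑ E₀ β_ij` for some `t²` matrices `β_ij` which are linearly independent over `E`, so `B` is an
`E₀`-form of `M_t(E)` -/
def IsForm (E₀ : Fld D) (B : Set (Mat D t)) : Prop :=
  ∃ β : Fin t × Fin t → Mat D t, LinearIndependent D.E β ∧
    ∀ b, b ∈ B ↔ ∃ c : Fin t × Fin t → D.E, (∀ i, c i ∈ E₀) ∧ b = ∑ i, c i • β i

/-- all extremal subgroups are `0` or `V` -/
def OnlyTrivial (x : Fin t → D.M) : Prop := ∀ L, Extremal x L → L = ⊥ ∨ L = ⊤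

/-- there is a counterexample to Q1 in `V` -/
def HasCounterexample (x : Fin t → D.M) : Prop := ∃ L, rank L ≤ n ∧ ρ x L < rank L

/-- the subgroup `F L` generated by all `e l`, `e ∈ F`, `l ∈ L` -/
def product (F : Submodule ℚ D.E) (L : Sub D t) : Sub D t :=
  Submodule.span ℚ {v | ∃ e ∈ F, ∃ l ∈ L, v = e • l}

/-- `F` is an `E₀`-subspace of `E` -/
def IsSubspace (E₀ : Fld D) (F : Submodule ℚ D.E) : Prop := ∀ e ∈ E₀, ∀ f ∈ F, e * f ∈ F

/-- the extremal subgroups are the products `F L₁`, `F` an `E₀`-subspace of `E`, and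
`ρ(F L₁) = dim_ℚ F` -/
def AllProducts (x : Fin t → D.M) (E₀ : Fld D) (L₁ : Sub D t) : Prop :=
  (∀ L, Extremal x L ↔ ∃ F, IsSubspace E₀ F ∧ L = product F L₁) ∧
  ∀ F, IsSubspace E₀ F → ρ x (product F L₁) = finrank ℚ F

/-- all nonzero elements of `B` are invertible in `B` -/
def IsDivision (B : Set (Mat D t)) : Prop := ∀ b ∈ B, b ≠ 0 → ∃ c ∈ B, c * b = 1

section transfer

variable (x : Fin t → D.M) (hx : LinearIndependent D.E x)

/-- the identification of `E^t` with `V` -/
noncomputable def eqv : (Fin t → D.E) ≃ₗ[D.E] Submodule.span D.E (Set.range x) :=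
  (Basis.span hx).equivFun.symm

/-- the same over `ℚ` -/
noncomputable def eqvQ : (Fin t → D.E) ≃ₗ[ℚ] Submodule.span D.E (Set.range x) :=
  (eqv x hx).restrictScalars ℚ

/-- the subgroup of `V` -/
noncomputable def up (L : Sub D t) : Submodule ℚ (Submodule.span D.E (Set.range x)) :=
  L.map (eqvQ x hx : (Fin t → D.E) →ₗ[ℚ] Submodule.span D.E (Set.range x))

theorem eqv_coe (e : Fin t → D.E) : ((eqv x hx e : Submodule.span D.E (Set.range x)) : D.M) =
    pt x e := by
  rw [eqv, Basis.equivFun_symm_apply, pt, LinearMap.restrictScalars_apply,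
    Fintype.linearCombination_apply, Submodule.coe_sum]
  refine Finset.sum_congr rfl fun i _ => ?_
  rw [Submodule.coe_smul, Basis.span_apply]

theorem mem_up {L : Sub D t} {v : Submodule.span D.E (Set.range x)} :
    v ∈ up x hx L ↔ ∃ l ∈ L, eqv x hx l = v := Iff.rfl

theorem up_mem {L : Sub D t} {l : Fin t → D.E} : eqv x hx l ∈ up x hx L ↔ l ∈ L := by
  rw [mem_up]
  constructor
  · rintro ⟨l', hl', h⟩
    rwa [← (eqv x hx).injective h]
  · intro h
    exact ⟨l, h, rfl⟩

theorem finrank_up (L : Sub D t) : finrank ℚ (up x hx L) = rank L :=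
  LinearEquiv.finrank_map_eq (eqvQ x hx) L

theorem crV_up (L : Sub D t) : Helper5.CL.crV _ (up x hx L) = ρ x L := by
  have h1 : (fun v : Submodule.span D.E (Set.range x) => D.log (v : D.M)) ''
      (up x hx L : Set (Submodule.span D.E (Set.range x))) =
      D.log '' ((L.map (pt x) : Submodule ℚ D.M) : Set D.M) := by
    ext z
    constructor
    · rintro ⟨_, ⟨l, hl, rfl⟩, rfl⟩
      exact ⟨pt x l, ⟨l, hl, rfl⟩, congrArg D.log (eqv_coe x hx l).symm⟩
    · rintro ⟨_, ⟨l, hl, rfl⟩, rfl⟩
      exact ⟨eqv x hx l, ⟨l, hl, rfl⟩, congrArg D.log (eqv_coe x hx l)⟩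
  rw [Helper5.CL.crV, h1]
  rfl

theorem ex_up (L : Sub D t) : Extremal x L ↔ Helper5.CL.Ex _ t (up x hx L) := by
  rw [Extremal, Helper5.CL.Ex, finrank_up, crV_up]

theorem up_surj (L' : Submodule ℚ (Submodule.span D.E (Set.range x))) :
    ∃ L, up x hx L = L' :=
  ⟨L'.comap (eqvQ x hx : (Fin t → D.E) →ₗ[ℚ] Submodule.span D.E (Set.range x)),
    Submodule.map_comap_eq_of_surjective (eqvQ x hx).surjective L'⟩

theorem up_inj {L L' : Sub D t} (h : up x hx L = up x hx L') : L = L' :=
  Submodule.map_injective_of_injective (eqvQ x hx).injective h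

theorem up_bot : up x hx (⊥ : Sub D t) = ⊥ := Submodule.map_bot _

theorem up_top : up x hx (⊤ : Sub D t) = ⊤ := by
  obtain ⟨L, hL⟩ := up_surj x hx ⊤
  rw [eq_top_iff, ← hL]
  exact Submodule.map_mono le_top

theorem stableE_up (e : D.E) (L : Sub D t) :
    (∀ l ∈ up x hx L, e • l ∈ up x hx L) ↔ StableE e L := by
  constructor
  · intro h l hl
    have h1 := h _ ((up_mem x hx).2 hl)
    rwa [← map_smul, up_mem] at h1
  · rintro h _ ⟨l, hl, rfl⟩
    exact ⟨e • l, h l hl, map_smul (eqv x hx) e l⟩

/-- matrices are endomorphisms of `V` -/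
noncomputable def mtx : Matrix (Fin t) (Fin t) D.E ≃ₐ[D.E]
    Module.End D.E (Submodule.span D.E (Set.range x)) :=
  Matrix.toLinAlgEquiv (Basis.span hx)

theorem mtx_eqv (b : Matrix (Fin t) (Fin t) D.E) (l : Fin t → D.E) :
    mtx x hx b (eqv x hx l) = eqv x hx (b.mulVec l) := by
  have h2 : ⇑((Basis.span hx).repr (eqv x hx l)) = l := (eqv x hx).symm_apply_apply l
  have h3 : ∀ w, eqv x hx w = ∑ j, w j • (Basis.span hx) j := fun w => by
    rw [eqv, Basis.equivFun_symm_apply]
  rw [mtx, Matrix.toLinAlgEquiv_apply, h2, ← h3]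

theorem stableM_up (b : Matrix (Fin t) (Fin t) D.E) (L : Sub D t) :
    (∀ l ∈ up x hx L, mtx x hx b l ∈ up x hx L) ↔ StableM b L := by
  constructor
  · intro h l hl
    have h1 := h _ ((up_mem x hx).2 hl)
    rwa [mtx_eqv, up_mem] at h1
  · rintro h _ ⟨l, hl, rfl⟩
    exact ⟨b.mulVec l, h l hl, (mtx_eqv x hx b l).symm⟩

theorem up_product (F : Submodule ℚ D.E) (L : Sub D t) :
    up x hx (product F L) = Helper5.CL.prodSpan (F : Set D.E) (up x hx L) := by
  rw [up, product, Submodule.map_span, Helper5.CL.prodSpan]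
  congr 1
  ext v
  constructor
  · rintro ⟨_, ⟨e, he, l, hl, rfl⟩, rfl⟩
    exact ⟨e, he, eqv x hx l, ⟨l, hl, rfl⟩, map_smul (eqv x hx) e l⟩
  · rintro ⟨e, he, _, ⟨l, hl, rfl⟩, rfl⟩
    exact ⟨e • l, ⟨e, he, l, hl, rfl⟩, map_smul (eqv x hx) e l⟩

end transfer

/-- the numbers `ρ(L)` of the extremal subgroups are the multiples of `q` up to `[E : ℚ]` -/
def RanksAre (x : Fin t → D.M) (q : ℕ) : Prop :=
  ∀ r, (∃ L, Extremal x L ∧ ρ x L = r) ↔ (q ∣ r ∧ r ≤ finrank ℚ D.E)

/-- Let `A` be a simple abelian variety over `ℚ` of dimension `n ≥ 1` with commutative endomorphism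
algebra `E`, `p` a prime, `x_1, ..., x_t` (`t ≥ 1`) elements of `A(ℚ) ⊗ ℚ` which are linearly
independent over `E`, `V = E x_1 + ... + E x_t = E^t`. Then `rank L ≤ t ρ(L)` for all `L ⊆ V`; the
subgroups with equality are called extremal. If `[E : ℚ] = n` or some nonzero `L ⊆ V` is extremal, let
`E₀` be the field of all `e ∈ E` and `B` the ring of all `b ∈ M_t(E) = End_E(V)` which stabilize all
extremal subgroups. Then `B` is an `E₀`-form of `M_t(E)`; a subgroup is extremal if and only if it is
stable under `B`; `E₀ = E` if and only if all extremal subgroups are `0` or `V`; if `t ≥ 2` and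
`E₀ ≠ E`, then `V` contains a counterexample to Q1. There is a divisor `d` of `t` such that the numbers
`ρ(L)` for extremal `L` are the multiples of `d [E₀ : ℚ]` up to `[E : ℚ]`; `d = t` if and only if `B` is
a division ring. If an extremal `L₁` has `ρ(L₁) = [E₀ : ℚ]` (which exists if and only if `d = 1`), the
extremal subgroups are the products `F L₁`, `F` an `E₀`-subspace of `E`, and `ρ(F L₁) = dim_ℚ F`. -/
theorem result (hn : 0 < n) (D : Setup p n) (hD : Props D) (ht : 0 < t) (x : Fin t → D.M)
    (hx : LinearIndependent D.E x) :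
    (∀ L : Sub D t, rank L ≤ t * ρ x L) ∧
    ((finrank ℚ D.E = n ∨ ∃ L : Sub D t, L ≠ ⊥ ∧ Extremal x L) →
      ∃ (E₀ : Fld D) (B : Set (Mat D t)) (d : ℕ), IsStabilizer x E₀ B ∧ IsForm E₀ B ∧
        (∀ L, Extremal x L ↔ ∀ b ∈ B, StableM b L) ∧
        (E₀ = ⊤ ↔ OnlyTrivial x) ∧ (2 ≤ t → E₀ ≠ ⊤ → HasCounterexample x) ∧
        d ∣ t ∧ (IsDivision B ↔ d = t) ∧ RanksAre x (d * deg E₀) ∧
        ∀ L₁, Extremal x L₁ → ρ x L₁ = deg E₀ → AllProducts x E₀ L₁) := by
  classical
  let V := Submodule.span D.E (Set.range x)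
  let P : Basis (Fin t) D.E V := Basis.span hx
  refine ⟨fun L => ?_, fun h => ?_⟩
  · rw [← finrank_up x hx, ← crV_up x hx]
    exact Helper5.CL.finrank_le_crV hn hD V P _
  obtain ⟨L₀, h0, hL₀⟩ : ∃ L : Submodule ℚ V, L ≠ ⊥ ∧ Helper5.CL.Ex V t L := by
    rcases h with h | ⟨L, h1, h2⟩
    · refine ⟨⊤, ?_, Helper5.CL.ext_of_gl2 hn hD V P ht h⟩
      have : Nontrivial V := ⟨P ⟨0, ht⟩, 0, P.ne_zero _⟩
      exact top_ne_bot
    · refine ⟨up x hx L, fun h3 => h1 (up_inj x hx (by rw [h3, up_bot])), (ex_up x hx L).1 h2⟩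
  obtain ⟨E₀, B, d, h1, h2, h3, h4, h5, h6, hd, hdiv, hrk⟩ :=
    Helper5.CL.mainC hn hD V P L₀ h0 hL₀
  have hall : ∀ Q : Submodule ℚ V → Prop,
      (∀ L', Helper5.CL.Ex V t L' → Q L') ↔ ∀ L, Extremal x L → Q (up x hx L) := by
    intro Q
    constructor
    · intro h L hL
      exact h _ ((ex_up x hx L).1 hL)
    · intro h L' hL'
      obtain ⟨L, rfl⟩ := up_surj x hx L'
      exact h L ((ex_up x hx L).2 hL')
  refine ⟨E₀, {b | mtx x hx b ∈ B}, d,
    ⟨fun e => ?_, fun b => ?_⟩, ?_, fun L => ?_, ?_, fun h8 h9 => ?_, hd, ?_, fun r => ?_,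
    fun L₁ h8 h9 => ⟨fun L => ?_, fun F hF => ?_⟩⟩
  · rw [h1, hall]
    exact forall_congr' fun L => by rw [stableE_up]
  · refine (h2 _).trans ?_
    rw [hall]
    exact forall_congr' fun L => by rw [← stableM_up x hx b L]
  · obtain ⟨ι, β, hβ⟩ := h3
    let β₁ : Basis ι D.E (Mat D t) := β.map (mtx x hx).symm.toLinearEquiv
    let e := β₁.indexEquiv (Matrix.stdBasis D.E (Fin t) (Fin t))
    let β₂ : Basis (Fin t × Fin t) D.E (Mat D t) := β₁.reindex e
    have hrep : ∀ b i, β₂.repr b i = β.repr (mtx x hx b) (e.symm i) := fun b i => by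
      rw [Basis.repr_reindex, Finsupp.mapDomain_equiv_apply]
      rfl
    refine ⟨β₂, β₂.linearIndependent, fun b => ?_⟩
    refine (hβ _).trans ?_
    constructor
    · intro h
      refine ⟨fun i => β₂.repr b i, fun i => ?_, (β₂.sum_repr b).symm⟩
      show β₂.repr b i ∈ E₀
      rw [hrep]
      exact h _
    · rintro ⟨c, hc, rfl⟩ i
      have e1 : β₂.repr (∑ i, c i • β₂ i) (e i) = c (e i) := by
        rw [β₂.repr_sum_self]
      rw [hrep, Equiv.symm_apply_apply] at e1
      rw [e1]
      exact hc _
  · rw [ex_up x hx]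
    refine (h4 _).trans ?_
    constructor
    · intro h b hb
      exact (stableM_up x hx b L).1 (h _ hb)
    · intro h b hb
      have e1 := (stableM_up x hx ((mtx x hx).symm b) L).2 (h _ (by
        show mtx x hx ((mtx x hx).symm b) ∈ B
        rw [AlgEquiv.apply_symm_apply]
        exact hb))
      rwa [AlgEquiv.apply_symm_apply] at e1
  · rw [h5, hall]
    refine forall_congr' fun L => ?_
    rw [← up_bot x hx, ← up_top x hx]
    constructor
    · intro h hL
      exact (h hL).imp (fun h => up_inj x hx h) (fun h => up_inj x hx h)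
    · intro h hL
      exact (h hL).imp (fun h => congrArg _ h) (fun h => congrArg _ h)
  · rw [Ne, h5] at h9
    push Not at h9
    obtain ⟨L, h10, h11, h12⟩ := h9
    obtain ⟨L₁, -, h13, h14⟩ := Helper5.CL.counterexample hn V P h8 L h10 h11 h12
    obtain ⟨L₂, rfl⟩ := up_surj x hx L₁
    rw [finrank_up] at h13 h14
    rw [crV_up] at h14
    exact ⟨L₂, h13, h14⟩
  · rw [← hdiv]
    constructor
    · intro h b hb hb0
      obtain ⟨c, hc, hcb⟩ := h ((mtx x hx).symm b) (by
        show mtx x hx ((mtx x hx).symm b) ∈ B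
        rw [AlgEquiv.apply_symm_apply]
        exact hb) (fun h => hb0 (by
        rwa [map_eq_zero_iff _ (mtx x hx).symm.injective] at h))
      refine ⟨mtx x hx c, hc, ?_⟩
      have e1 := congrArg (mtx x hx) hcb
      rwa [map_mul, AlgEquiv.apply_symm_apply, map_one] at e1
    · intro h b hb hb0
      obtain ⟨c, hc, hcb⟩ := h (mtx x hx b) hb (fun h => hb0 (by
        rwa [map_eq_zero_iff _ (mtx x hx).injective] at h))
      refine ⟨(mtx x hx).symm c, ?_, ?_⟩
      · show mtx x hx ((mtx x hx).symm c) ∈ B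
        rw [AlgEquiv.apply_symm_apply]
        exact hc
      · apply (mtx x hx).injective
        rw [map_mul, AlgEquiv.apply_symm_apply, map_one]
        exact hcb
  · refine Iff.trans ?_ (hrk r)
    constructor
    · rintro ⟨L, hL, rfl⟩
      exact ⟨up x hx L, (ex_up x hx L).1 hL, crV_up x hx L⟩
    · rintro ⟨L', hL', hr⟩
      obtain ⟨L, rfl⟩ := up_surj x hx L'
      exact ⟨L, (ex_up x hx L).2 hL', by rw [← crV_up x hx]; exact hr⟩
  · rw [ex_up x hx] at h8 ⊢
    rw [← crV_up x hx] at h9
    rw [(h6 _ h8 h9).1]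
    refine exists_congr fun F => and_congr Iff.rfl ?_
    rw [← up_product]
    exact ⟨fun h => up_inj x hx h, fun h => congrArg _ h⟩
  · rw [ex_up x hx] at h8
    rw [← crV_up x hx] at h9
    rw [← crV_up x hx, up_product]
    exact (h6 _ h8 h9).2 F hF

end Pool.Agent.Results.MP_52423f_nt.ExtremalClosures
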